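import Pool.Agent.LargeDist.Basic
import Pool.Agent.LargeDist.Color

set_option autoImplicit false

/-!
# Lower bounds: the sets of the indicator vectors of `j`-subsets; the diameter graph

* `choose_le_D`: the `m.choose j` indicator vectors of the `j`-subsets of `Fin m` have at most `j`
  distinct distances.
* `chi_le_f_one`: every finite set occurs (with a cluster of new points near a midpoint) in the
  definition of `f d 1`.
* `f_one_le`, `f_le_pow`: `f d 1 ≤ f d k ≤ (f d 1) ^ k`.
-/

namespace Pool.Agent.LargeDistU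

open Finset Pool.Agent.LargeDist

/-- the indicator vector -/
noncomputable def ind {m : ℕ} (s : Finset (Fin m)) : EuclideanSpace ℝ (Fin m) :=
  WithLp.toLp 2 fun i => if i ∈ s then (1 : ℝ) else 0

theorem ind_inj {m : ℕ} : Function.Injective (ind (m := m)) := by
  intro s t h
  ext i
  have h1 := congrFun (congrArg (fun v : EuclideanSpace ℝ (Fin m) => v.ofLp) h) i
  simp only [ind] at h1
  by_cases hs : i ∈ s <;> by_cases ht : i ∈ t <;> simp_all

theorem dist_ind {m : ℕ} (s t : Finset (Fin m)) (h : s.card = t.card) :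
    dist (ind s) (ind t) = Real.sqrt ((2 * (s \ t).card : ℕ) : ℝ) := by
  rw [EuclideanSpace.dist_eq]
  congr 1
  have h1 : ∀ i, dist ((ind s).ofLp i) ((ind t).ofLp i) ^ 2 =
      (if i ∈ s \ t then (1 : ℝ) else 0) + (if i ∈ t \ s then (1 : ℝ) else 0) := by
    intro i
    simp only [ind, Real.dist_eq, Finset.mem_sdiff]
    by_cases hs : i ∈ s <;> by_cases ht : i ∈ t <;> simp [hs, ht]
  simp only [h1, Finset.sum_add_distrib]
  rw [Finset.sum_boole, Finset.sum_boole]
  have h2 : (Finset.univ.filter fun i => i ∈ s \ t) = s \ t := by ext i; simp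
  have h3 : (Finset.univ.filter fun i => i ∈ t \ s) = t \ s := by ext i; simp
  rw [h2, h3, Finset.card_sdiff_comm h]
  push_cast
  ring

theorem choose_le_D (m j k : ℕ) (hjk : j ≤ k) : ((m.choose j : ℕ) : ℕ∞) ≤ D m k := by
  classical
  set A : Finset (EuclideanSpace ℝ (Fin m)) :=
    ((Finset.univ : Finset (Fin m)).powersetCard j).image ind with hA
  have hAcard : A.card = m.choose j := by
    rw [hA, Finset.card_image_of_injective _ ind_inj, Finset.card_powersetCard, Finset.card_univ,
      Fintype.card_fin]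
  have hsub : dists A ⊆ (Finset.Icc 1 j).image (fun i : ℕ => Real.sqrt ((2 * i : ℕ) : ℝ)) := by
    intro t ht
    obtain ⟨x, hx, z, hz, hxz, rfl⟩ := mem_dists.1 ht
    obtain ⟨a, ha, rfl⟩ := Finset.mem_image.1 hx
    obtain ⟨b, hb, rfl⟩ := Finset.mem_image.1 hz
    have ha' := (Finset.mem_powersetCard.1 ha).2
    have hb' := (Finset.mem_powersetCard.1 hb).2
    rw [dist_ind a b (ha'.trans hb'.symm), Finset.mem_image]
    refine ⟨(a \ b).card, Finset.mem_Icc.2 ⟨?_, ?_⟩, rfl⟩
    · rw [Nat.one_le_iff_ne_zero, Ne, Finset.card_eq_zero, Finset.sdiff_eq_empty_iff_subset]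
      intro h
      exact hxz (congrArg ind (Finset.eq_of_subset_of_card_le h (by omega)))
    · exact (Finset.card_le_card Finset.sdiff_subset).trans ha'.le
  have hk : (dists A).card ≤ k := by
    refine (Finset.card_le_card hsub).trans (Finset.card_image_le.trans ?_)
    rw [Nat.card_Icc]
    omega
  rw [← hAcard]
  unfold D
  exact le_iSup (fun A : {A : Finset (EuclideanSpace ℝ (Fin m)) // (dists A).card ≤ k} =>
    (A.1.card : ℕ∞)) ⟨A, hk⟩

variable {d : ℕ}

theorem le_kthDist_one {S : Finset (EuclideanSpace ℝ (Fin d))} {t : ℝ} (ht : t ∈ dists S) :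
    t ≤ kthDist S 1 := by
  by_contra hcon
  push Not at hcon
  have hpos : 1 ≤ (dists S).card := Finset.card_pos.2 ⟨t, ht⟩
  have h1 := card_filter_kthDist (le_refl 1) hpos
  have h2 := kthDist_mem (le_refl 1) hpos
  obtain ⟨u, hu⟩ := Finset.card_eq_one.1 h1
  have h3 : kthDist S 1 ∈ ({u} : Finset ℝ) := hu ▸ Finset.mem_filter.2 ⟨h2, le_refl _⟩
  have h4 : t ∈ ({u} : Finset ℝ) := hu ▸ Finset.mem_filter.2 ⟨ht, hcon.le⟩
  rw [Finset.mem_singleton] at h3 h4
  rw [h3, h4] at hcon
  exact lt_irrefl _ hcon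

theorem kthDist_one_eq {S : Finset (EuclideanSpace ℝ (Fin d))} {δ : ℝ} (h : δ ∈ dists S)
    (hm : ∀ t ∈ dists S, t ≤ δ) : kthDist S 1 = δ :=
  le_antisymm (hm _ (kthDist_mem (le_refl 1) (Finset.card_pos.2 ⟨δ, h⟩))) (le_kthDist_one h)

/-- every finite set (with a cluster near a midpoint) occurs in the definition of `f d 1` -/
theorem chi_le_f_one (S : Finset (EuclideanSpace ℝ (Fin d))) (hS : 1 ≤ (dists S).card) :
    (largeDistGraph S 1).chromaticNumber ≤ f d 1 := by
  classical
  unfold f
  apply le_iInf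
  intro n
  set δ := kthDist S 1 with hδ
  obtain ⟨a, ha, b, hb, hab, hd⟩ := mem_dists.1 (kthDist_mem (le_refl 1) hS)
  rw [← hδ] at hd
  have hδ0 : 0 < δ := by rw [← hd]; exact dist_pos.2 hab
  have hle : ∀ x ∈ S, ∀ y ∈ S, dist x y ≤ δ := by
    intro x hx y hy
    by_cases hxy : x = y
    · rw [hxy, dist_self]; exact hδ0.le
    · exact le_kthDist_one (mem_dists.2 ⟨x, hx, y, hy, hxy, rfl⟩)
  set p := midpoint ℝ a b with hp
  have hmid : ∀ s ∈ S, dist s p ≤ 9 / 10 * δ := by
    intro s hs
    have h1 := EuclideanGeometry.dist_sq_add_dist_sq_eq_two_mul_dist_midpoint_sq_add_half_dist_sq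
      s a b
    rw [← hp, hd] at h1
    have h2 := hle s hs a ha
    have h3 := hle s hs b hb
    have h4 : dist s a ^ 2 ≤ δ ^ 2 := pow_le_pow_left₀ dist_nonneg h2 2
    have h5 : dist s b ^ 2 ≤ δ ^ 2 := pow_le_pow_left₀ dist_nonneg h3 2
    have h6 : dist s p ^ 2 ≤ (9 / 10 * δ) ^ 2 := by nlinarith
    exact le_of_sq_le_sq h6 (by positivity)
  let q : ℕ → EuclideanSpace ℝ (Fin d) := fun t =>
    p + ((t : ℝ) / (20 * (n + 1))) • (b - a)
  have hn : (0 : ℝ) < 20 * (n + 1) := by positivity
  have hba : ‖b - a‖ = δ := by rw [← hd, dist_comm, dist_eq_norm]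
  have hqp : ∀ t ≤ n, dist (q t) p ≤ δ / 20 := by
    intro t ht
    rw [dist_eq_norm]
    have e : q t - p = ((t : ℝ) / (20 * (n + 1))) • (b - a) := by simp [q]
    rw [e, norm_smul, hba, Real.norm_of_nonneg (by positivity)]
    have h1 : (t : ℝ) ≤ n := by exact_mod_cast ht
    have h2 : (t : ℝ) / (20 * (n + 1)) ≤ 1 / 20 := by
      rw [div_le_div_iff₀ hn (by norm_num)]
      linarith
    calc (t : ℝ) / (20 * (n + 1)) * δ ≤ 1 / 20 * δ := mul_le_mul_of_nonneg_right h2 hδ0.le
      _ = δ / 20 := by ring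
  have hqinj : Function.Injective q := by
    intro t u htu
    have h1 : ((t : ℝ) / (20 * (n + 1)) - (u : ℝ) / (20 * (n + 1))) • (b - a) = 0 := by
      rw [sub_smul, sub_eq_zero]
      exact add_left_cancel htu
    rcases smul_eq_zero.1 h1 with h2 | h2
    · rw [← sub_div, div_eq_zero_iff] at h2
      rcases h2 with h2 | h2
      · exact_mod_cast sub_eq_zero.1 h2
      · exact absurd h2 hn.ne'
    · exact absurd (sub_eq_zero.1 h2).symm hab
  set T := S ∪ (Finset.range (n + 1)).image q with hT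
  have hTle : ∀ x ∈ T, ∀ y ∈ T, dist x y ≤ δ := by
    have hx2 : ∀ x ∈ (Finset.range (n + 1)).image q, dist x p ≤ δ / 20 := by
      intro x hx
      obtain ⟨t, ht, rfl⟩ := Finset.mem_image.1 hx
      exact hqp t (by have := Finset.mem_range.1 ht; omega)
    intro x hx y hy
    rcases Finset.mem_union.1 hx with hx | hx <;> rcases Finset.mem_union.1 hy with hy | hy
    · exact hle x hx y hy
    · have := dist_triangle_right x y p
      have h1 := hmid x hx
      have h2 := hx2 y hy
      linarith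
    · have := dist_triangle_right x y p
      have h1 := hmid y hy
      have h2 := hx2 x hx
      linarith
    · have := dist_triangle_right x y p
      have h1 := hx2 y hy
      have h2 := hx2 x hx
      linarith
  have hST : S ⊆ T := Finset.subset_union_left
  have hδT : δ ∈ dists T := mem_dists.2 ⟨a, hST ha, b, hST hb, hab, hd⟩
  have hkT : kthDist T 1 = δ := by
    apply kthDist_one_eq hδT
    intro t ht
    obtain ⟨x, hx, y, hy, -, rfl⟩ := mem_dists.1 ht
    exact hTle x hx y hy
  have hTn : n ≤ T.card := by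
    have h1 : ((Finset.range (n + 1)).image q).card = n + 1 := by
      rw [Finset.card_image_of_injective _ hqinj, Finset.card_range]
    have h2 : ((Finset.range (n + 1)).image q).card ≤ T.card :=
      Finset.card_le_card Finset.subset_union_right
    omega
  have hom : largeDistGraph S 1 →g largeDistGraph T 1 :=
    { toFun := fun x => ⟨x.1, hST x.2⟩
      map_rel' := by
        intro x z hxz
        have hne' : (x : EuclideanSpace ℝ (Fin d)) ≠ z := fun h => hxz.1 (Subtype.ext h)
        refine ⟨fun h => hne' (congrArg (fun u : T => u.1) h), ?_⟩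
        rw [hkT]
        exact hxz.2 }
  exact (SimpleGraph.chromaticNumber_mono_of_hom hom).trans
    (le_iSup (fun S : {S : Finset (EuclideanSpace ℝ (Fin d)) //
    n ≤ S.card ∧ 1 ≤ (dists S).card} => (largeDistGraph S.1 1).chromaticNumber)
      ⟨T, hTn, Finset.card_pos.2 ⟨δ, hδT⟩⟩)

/-- the vertices of a regular simplex -/
theorem le_f_one (hd : 2 ≤ d) : (d : ℕ∞) ≤ f d 1 := by
  classical
  set S : Finset (EuclideanSpace ℝ (Fin d)) :=
    (Finset.univ : Finset (Fin d)).image (fun i => ind {i}) with hS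
  have hinj : Function.Injective (fun i : Fin d => ind ({i} : Finset (Fin d))) := by
    intro i j hij
    exact Finset.singleton_injective (ind_inj hij)
  have hcard : S.card = d := by
    rw [hS, Finset.card_image_of_injective _ hinj, Finset.card_univ, Fintype.card_fin]
  have hdist : ∀ x ∈ S, ∀ y ∈ S, x ≠ y → dist x y = Real.sqrt ((2 : ℕ) : ℝ) := by
    intro x hx y hy hxy
    obtain ⟨i, -, rfl⟩ := Finset.mem_image.1 hx
    obtain ⟨j, -, rfl⟩ := Finset.mem_image.1 hy
    have hij : i ≠ j := fun h => hxy (by rw [h])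
    rw [dist_ind _ _ (by simp)]
    have : ({i} : Finset (Fin d)) \ {j} = {i} := by
      ext t
      simp only [Finset.mem_sdiff, Finset.mem_singleton]
      constructor
      · exact fun h => h.1
      · rintro rfl; exact ⟨rfl, hij⟩
    rw [this]
    simp
  have hmem : Real.sqrt ((2 : ℕ) : ℝ) ∈ dists S := by
    have h1 : ind ({⟨0, by omega⟩} : Finset (Fin d)) ∈ S :=
      Finset.mem_image.2 ⟨_, Finset.mem_univ _, rfl⟩
    have h2 : ind ({⟨1, by omega⟩} : Finset (Fin d)) ∈ S :=
      Finset.mem_image.2 ⟨_, Finset.mem_univ _, rfl⟩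
    have h3 : ind ({⟨0, by omega⟩} : Finset (Fin d)) ≠ ind ({⟨1, by omega⟩} : Finset (Fin d)) := by
      intro h
      have := hinj h
      simp at this
    exact mem_dists.2 ⟨_, h1, _, h2, h3, hdist _ h1 _ h2 h3⟩
  have hk : kthDist S 1 = Real.sqrt ((2 : ℕ) : ℝ) := by
    apply kthDist_one_eq hmem
    intro t ht
    obtain ⟨x, hx, y, hy, hxy, rfl⟩ := mem_dists.1 ht
    exact (hdist x hx y hy hxy).le
  have htop : largeDistGraph S 1 = ⊤ := by
    ext x z
    simp only [largeDistGraph, SimpleGraph.top_adj]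
    refine ⟨fun h => h.1, fun h => ⟨h, ?_⟩⟩
    rw [hk, hdist x.1 x.2 z.1 z.2 (fun h' => h (Subtype.ext h'))]
  have h1 := chi_le_f_one S (Finset.card_pos.2 ⟨_, hmem⟩)
  rwa [htop, SimpleGraph.chromaticNumber_top, Fintype.card_coe, hcard] at h1

/-- `f d k` is at least `f d 1` -/
theorem f_one_le (k : ℕ) (hk : 1 ≤ k) : f d 1 ≤ f d k := by
  classical
  unfold f
  apply le_iInf
  intro n
  refine (iInf_le _ (max n ((k + 1) ^ (d + 1) + 1))).trans ?_
  apply iSup_le
  rintro ⟨S, hS1, hS2⟩
  simp only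
  have hkS : k ≤ (dists S).card := by
    by_contra hcon
    push Not at hcon
    have h1 := card_le_of_dists k S hcon.le
    have h2 := (le_max_right n ((k + 1) ^ (d + 1) + 1)).trans hS1
    omega
  have hle : largeDistGraph S 1 ≤ largeDistGraph S k := by
    intro x z hxz
    exact ⟨hxz.1, (le_kthDist_one (kthDist_mem hk hkS)).trans hxz.2⟩
  exact (SimpleGraph.chromaticNumber_mono _ hle).trans
    (le_iSup (fun S : {S : Finset (EuclideanSpace ℝ (Fin d)) //
    n ≤ S.card ∧ k ≤ (dists S).card} => (largeDistGraph S.1 k).chromaticNumber)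
      ⟨S, (le_max_left _ _).trans hS1, hkS⟩)

/-- one can split off the large distances one by one -/
theorem splits_pow {b : ℕ} (hb : 1 ≤ b) (hf : f d 1 ≤ b) {r : ℝ} (hr : 0 < r) (j : ℕ) :
    ∀ P : Finset (EuclideanSpace ℝ (Fin d)), ((dists P).filter (fun t => r ≤ t)).card ≤ j →
      Splits P r (b ^ j) := by
  classical
  have hbase : ∀ P : Finset (EuclideanSpace ℝ (Fin d)),
      ((dists P).filter (fun t => r ≤ t)).card = 0 → Splits P r 1 := by
    intro P hP
    refine ⟨fun _ => 0, fun _ _ => one_pos, fun x hx y hy _ => ?_⟩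
    by_cases hxy : x = y
    · rw [hxy, dist_self]; exact hr
    · by_contra hcon
      push Not at hcon
      rw [Finset.card_eq_zero] at hP
      have : dist x y ∈ (dists P).filter (fun t => r ≤ t) :=
        Finset.mem_filter.2 ⟨mem_dists.2 ⟨x, hx, y, hy, hxy, rfl⟩, hcon⟩
      rw [hP] at this
      simp at this
  induction j with
  | zero =>
    intro P hP
    rw [pow_zero]
    exact hbase P (by omega)
  | succ j ih =>
    intro P hP
    by_cases h0 : ((dists P).filter (fun t => r ≤ t)).card = 0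
    · exact (hbase P h0).mono (Nat.one_le_pow _ _ hb)
    have hne : ((dists P).filter (fun t => r ≤ t)).Nonempty := by
      rw [← Finset.card_pos]; omega
    obtain ⟨t0, ht0⟩ := hne
    have ht0' := Finset.mem_filter.1 ht0
    have hc : 1 ≤ (dists P).card := Finset.card_pos.2 ⟨t0, ht0'.1⟩
    set δ := kthDist P 1 with hδ
    have hδm : δ ∈ dists P := kthDist_mem (le_refl 1) hc
    have hrδ : r ≤ δ := ht0'.2.trans (le_kthDist_one ht0'.1)
    have hcol : (largeDistGraph P 1).Colorable b := by
      rw [← SimpleGraph.chromaticNumber_le_iff_colorable]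
      exact (chi_le_f_one P hc).trans hf
    obtain ⟨C⟩ := hcol
    let c0 : EuclideanSpace ℝ (Fin d) → ℕ := fun x => if h : x ∈ P then (C ⟨x, h⟩ : ℕ) else 0
    have hc0 : ∀ x ∈ P, c0 x < b := by
      intro x hx
      simp only [c0, hx, dif_pos]
      exact (C ⟨x, hx⟩).2
    have hc0' : ∀ x ∈ P, ∀ y ∈ P, c0 x = c0 y → dist x y ≠ δ := by
      intro x hx y hy hxy hxd
      simp only [c0, hx, hy, dif_pos] at hxy
      have hxy' : C ⟨x, hx⟩ = C ⟨y, hy⟩ := Fin.ext hxy
      have hne : x ≠ y := by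
        rintro rfl
        rw [dist_self] at hxd
        have := dists_pos hδm
        rw [← hxd] at this
        exact lt_irrefl _ this
      have hadj : (largeDistGraph P 1).Adj ⟨x, hx⟩ ⟨y, hy⟩ :=
        ⟨fun h => hne (congrArg (fun u : P => u.1) h), by rw [← hδ]; exact hxd.ge⟩
      exact C.valid hadj hxy'
    have hcls : ∀ i : ℕ, Splits (P.filter fun x => c0 x = i) r (b ^ j) := by
      intro i
      apply ih
      have hsub : (dists (P.filter fun x => c0 x = i)).filter (fun t => r ≤ t) ⊆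
          ((dists P).filter (fun t => r ≤ t)).erase δ := by
        intro t ht
        obtain ⟨ht1, ht2⟩ := Finset.mem_filter.1 ht
        obtain ⟨x, hx, y, hy, hxy, hxyt⟩ := mem_dists.1 ht1
        have hx' := Finset.mem_filter.1 hx
        have hy' := Finset.mem_filter.1 hy
        refine Finset.mem_erase.2 ⟨?_, Finset.mem_filter.2
          ⟨dists_mono (Finset.filter_subset _ _) ht1, ht2⟩⟩
        rw [← hxyt]
        exact hc0' x hx'.1 y hy'.1 (hx'.2.trans hy'.2.symm)
      have h1 := Finset.card_le_card hsub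
      have h3 : (((dists P).filter (fun t => r ≤ t)).erase δ).card =
          ((dists P).filter (fun t => r ≤ t)).card - 1 :=
        Finset.card_erase_of_mem (Finset.mem_filter.2 ⟨hδm, hrδ⟩)
      rw [h3] at h1
      omega
    choose c1 h1 h2 using hcls
    refine ⟨fun x => c0 x * b ^ j + c1 (c0 x) x, fun x hx => ?_, fun x hx y hy hxy => ?_⟩
    · have h3 := hc0 x hx
      have h4 := h1 (c0 x) x (Finset.mem_filter.2 ⟨hx, rfl⟩)
      calc c0 x * b ^ j + c1 (c0 x) x < c0 x * b ^ j + b ^ j := by omega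
        _ = (c0 x + 1) * b ^ j := by ring
        _ ≤ b * b ^ j := Nat.mul_le_mul_right _ h3
        _ = b ^ (j + 1) := by ring
    · have h4 := h1 (c0 x) x (Finset.mem_filter.2 ⟨hx, rfl⟩)
      have h5 := h1 (c0 y) y (Finset.mem_filter.2 ⟨hy, rfl⟩)
      replace hxy : c0 x * b ^ j + c1 (c0 x) x = c0 y * b ^ j + c1 (c0 y) y := hxy
      have h6 : c0 x = c0 y := by
        have hb0 : 0 < b ^ j := by positivity
        have h7 : (c0 x * b ^ j + c1 (c0 x) x) / b ^ j =
            (c0 y * b ^ j + c1 (c0 y) y) / b ^ j := by rw [hxy]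
        rw [Nat.mul_comm (c0 x), Nat.mul_comm (c0 y), Nat.mul_add_div hb0, Nat.mul_add_div hb0,
          Nat.div_eq_of_lt h4, Nat.div_eq_of_lt h5] at h7
        simpa using h7
      have h8 : c1 (c0 x) x = c1 (c0 x) y := by
        rw [h6] at hxy ⊢
        omega
      exact h2 (c0 x) x (Finset.mem_filter.2 ⟨hx, rfl⟩) y (Finset.mem_filter.2 ⟨hy, h6.symm⟩) h8

theorem one_le_f_one (hd : 1 ≤ d) : 1 ≤ f d 1 := by
  classical
  have h01 : ind (∅ : Finset (Fin d)) ≠ ind ({⟨0, by omega⟩} : Finset (Fin d)) := by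
    intro h
    have := ind_inj h
    exact (Finset.singleton_ne_empty _) this.symm
  set S : Finset (EuclideanSpace ℝ (Fin d)) := {ind ∅, ind {⟨0, by omega⟩}} with hS
  have hc : 1 ≤ (dists S).card := Finset.card_pos.2
    ⟨_, mem_dists.2 ⟨_, by simp [hS], _, by simp [hS], h01, rfl⟩⟩
  refine le_trans ?_ (chi_le_f_one S hc)
  rw [Order.one_le_iff_ne_zero]
  intro h
  have h1 : IsEmpty S := by
    have h2 : (largeDistGraph S 1).Colorable 0 := by
      rw [← SimpleGraph.chromaticNumber_le_iff_colorable]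
      exact h.le
    obtain ⟨C⟩ := h2
    exact ⟨fun x => Fin.elim0 (C x)⟩
  exact h1.false ⟨ind ∅, by simp [hS]⟩

theorem f_le_pow (hd : 1 ≤ d) (k : ℕ) (hk : 1 ≤ k) : f d k ≤ f d 1 ^ k := by
  classical
  rcases eq_or_ne (f d 1) ⊤ with htop | htop
  · rw [htop, ENat.top_pow (by omega)]
    exact le_top
  obtain ⟨b, hb⟩ := ENat.ne_top_iff_exists.1 htop
  have hb1 : 1 ≤ b := by
    have h := one_le_f_one (d := d) hd
    rw [← hb] at h
    exact_mod_cast h
  rw [← hb]
  unfold f
  refine (iInf_le _ 0).trans ?_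
  apply iSup_le
  rintro ⟨S, -, hS⟩
  simp only
  have h1 := splits_pow hb1 hb.symm.le (dists_pos (kthDist_mem hk hS)) k S
    (card_filter_kthDist hk hS).le
  exact_mod_cast chromaticNumber_le_of_splits h1

end Pool.Agent.LargeDistU
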