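import Mathlib

set_option autoImplicit false

/-!
# Inequalities between binomial coefficients
-/

namespace Pool.Agent.LargeDistU

theorem choose_le_pow1 (d k : ℕ) : (d + k).choose k ≤ (d + 1) ^ k := by
  induction k with
  | zero => simp
  | succ k ih =>
    have h := Nat.add_one_mul_choose_eq (d + k) k
    have h1 : (d + k + 1) * (d + k).choose k = (d + (k + 1)).choose (k + 1) * (k + 1) := h
    have h2 : (d + (k + 1)).choose (k + 1) * (k + 1) ≤ (d + 1) ^ (k + 1) * (k + 1) := by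
      rw [← h1]
      calc (d + k + 1) * (d + k).choose k ≤ ((k + 1) * (d + 1)) * (d + 1) ^ k :=
            Nat.mul_le_mul (by nlinarith) ih
        _ = (d + 1) ^ (k + 1) * (k + 1) := by ring
    exact Nat.le_of_mul_le_mul_right h2 (by omega)

theorem pow_le_choose (j : ℕ) : ∀ m : ℕ, j ≤ m → m ^ j ≤ m.choose j * j ^ j := by
  induction j with
  | zero => intro m _; simp
  | succ j ih =>
    intro m hm
    obtain ⟨m', rfl⟩ : ∃ m', m = m' + 1 := ⟨m - 1, by omega⟩
    have hj : j ≤ m' := by omega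
    have h := Nat.add_one_mul_choose_eq m' j
    have h1 : (m' + 1) * m'.choose j = (m' + 1).choose (j + 1) * (j + 1) := h
    have h2 : (m' + 1) ^ j ≤ m'.choose j * (j + 1) ^ j := by
      rcases Nat.eq_zero_or_pos j with rfl | hj0
      · simp
      have h3 : 0 < j ^ j := by positivity
      apply Nat.le_of_mul_le_mul_right _ h3
      calc (m' + 1) ^ j * j ^ j = ((m' + 1) * j) ^ j := by rw [mul_pow]
        _ ≤ (m' * (j + 1)) ^ j := Nat.pow_le_pow_left (by nlinarith) _
        _ = m' ^ j * (j + 1) ^ j := by rw [mul_pow]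
        _ ≤ (m'.choose j * j ^ j) * (j + 1) ^ j := Nat.mul_le_mul_right _ (ih m' hj)
        _ = m'.choose j * (j + 1) ^ j * j ^ j := by ring
    calc (m' + 1) ^ (j + 1) = (m' + 1) * (m' + 1) ^ j := by ring
      _ ≤ (m' + 1) * (m'.choose j * (j + 1) ^ j) := Nat.mul_le_mul_left _ h2
      _ = ((m' + 1) * m'.choose j) * (j + 1) ^ j := by ring
      _ = ((m' + 1).choose (j + 1) * (j + 1)) * (j + 1) ^ j := by rw [h1]
      _ = (m' + 1).choose (j + 1) * (j + 1) ^ (j + 1) := by ring

theorem choose_le_exp (n k : ℕ) (hk : 1 ≤ k) :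
    ((n.choose k : ℕ) : ℝ) ≤ (2.72 * (n / k)) ^ k := by
  have hk0 : (0 : ℝ) < k := by exact_mod_cast hk
  have h1 : ((n.choose k : ℕ) : ℝ) ≤ (n : ℝ) ^ k / (k.factorial : ℝ) := Nat.choose_le_pow_div k n
  have h2 : (k : ℝ) ^ k / (k.factorial : ℝ) ≤ Real.exp k :=
    Real.pow_div_factorial_le_exp (k : ℝ) (by positivity) k
  have h3 : Real.exp k ≤ 2.72 ^ k := by
    have h4 : Real.exp (k : ℝ) = Real.exp 1 ^ k := by rw [← Real.exp_nat_mul, mul_one]
    rw [h4]
    exact pow_le_pow_left₀ (Real.exp_pos _).le (by linarith [Real.exp_one_lt_d9]) _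
  calc ((n.choose k : ℕ) : ℝ) ≤ (n : ℝ) ^ k / (k.factorial : ℝ) := h1
    _ = ((n : ℝ) / k) ^ k * ((k : ℝ) ^ k / (k.factorial : ℝ)) := by
        rw [div_pow]
        field_simp
    _ ≤ ((n : ℝ) / k) ^ k * 2.72 ^ k :=
        mul_le_mul_of_nonneg_left (h2.trans h3) (by positivity)
    _ = (2.72 * (n / k)) ^ k := by rw [← mul_pow, mul_comm]

theorem eleven (d a : ℕ) (hd : 3 ≤ d) (h1 : d ≤ a) (h2 : 2 ^ (d - 2) ≤ a ^ 2) :
    11 ^ d ≤ a ^ 12 := by
  rcases Nat.lt_or_ge d 5 with h | h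
  · rcases (by omega : d = 3 ∨ d = 4) with rfl | rfl
    · calc 11 ^ 3 ≤ 3 ^ 12 := by norm_num
        _ ≤ a ^ 12 := Nat.pow_le_pow_left h1 _
    · calc 11 ^ 4 ≤ 4 ^ 12 := by norm_num
        _ ≤ a ^ 12 := Nat.pow_le_pow_left h1 _
  · have h3 : ∀ e : ℕ, 11 ^ (e + 5) ≤ 64 ^ (e + 3) := by
      intro e
      induction e with
      | zero => norm_num
      | succ e ih =>
        calc 11 ^ (e + 1 + 5) = 11 * 11 ^ (e + 5) := by ring
          _ ≤ 64 * 64 ^ (e + 3) := Nat.mul_le_mul (by norm_num) ih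
          _ = 64 ^ (e + 1 + 3) := by ring
    obtain ⟨e, rfl⟩ : ∃ e, d = e + 5 := ⟨d - 5, by omega⟩
    have h4 := h3 e
    have e1 : e + 5 - 2 = e + 3 := by omega
    rw [e1] at h2
    calc 11 ^ (e + 5) ≤ 64 ^ (e + 3) := h4
      _ = (2 ^ (e + 3)) ^ 6 := by rw [← pow_mul, mul_comm, pow_mul]; norm_num
      _ ≤ (a ^ 2) ^ 6 := Nat.pow_le_pow_left h2 _
      _ = a ^ 12 := by ring

theorem numeric (d k a : ℕ) (hd : 3 ≤ d) (hk : 1 ≤ k) (h1 : d ≤ a)
    (h2 : ∀ j, 2 * j + 1 ≤ k → (d - 2).choose j ≤ a)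
    (h3 : ∀ n, 2 * ((d - 2) * (n - 1) ^ 2) + 1 ≤ k → n ^ (d - 2) ≤ a) :
    (d + k).choose k ≤ a ^ 18 := by
  have ha1 : 1 ≤ a := by omega
  have ha1' : (1 : ℝ) ≤ a := by exact_mod_cast ha1
  rcases Nat.lt_or_ge k 14 with hk14 | hk14
  · -- small `k`
    have h4 : (d + 1) ^ 13 ≤ d ^ 18 := by
      have h5 : 3 ^ 13 * (d + 1) ^ 13 ≤ 3 ^ 13 * d ^ 18 := by
        calc 3 ^ 13 * (d + 1) ^ 13 = (3 * (d + 1)) ^ 13 := by rw [mul_pow]
          _ ≤ (4 * d) ^ 13 := Nat.pow_le_pow_left (by omega) _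
          _ = 4 ^ 13 * d ^ 13 := by rw [mul_pow]
          _ ≤ 3 ^ 18 * d ^ 13 := Nat.mul_le_mul_right _ (by norm_num)
          _ = 3 ^ 13 * (3 ^ 5 * d ^ 13) := by ring
          _ ≤ 3 ^ 13 * (d ^ 5 * d ^ 13) :=
            Nat.mul_le_mul_left _ (Nat.mul_le_mul_right _ (Nat.pow_le_pow_left hd _))
          _ = 3 ^ 13 * d ^ 18 := by ring
      exact Nat.le_of_mul_le_mul_left h5 (by norm_num)
    calc (d + k).choose k ≤ (d + 1) ^ k := choose_le_pow1 d k
      _ ≤ (d + 1) ^ 13 := Nat.pow_le_pow_right (by omega) (by omega)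
      _ ≤ d ^ 18 := h4
      _ ≤ a ^ 18 := Nat.pow_le_pow_left h1 _
  · have hd0 : (0 : ℝ) < d := by
      have : 0 < d := by omega
      exact_mod_cast this
    have hk0 : (0 : ℝ) < k := by exact_mod_cast hk
    rcases Nat.lt_or_ge d k with hdk | hdk
    · -- `d < k`
      have h4 : ((((d + k).choose k : ℕ)) : ℝ) ≤ (5.44 * ((k : ℝ) / d)) ^ d := by
        have h5 := choose_le_exp (d + k) d (by omega)
        have h6 : (d + k).choose k = (d + k).choose d := by
          rw [← Nat.choose_symm_add]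
        rw [h6]
        refine h5.trans (pow_le_pow_left₀ (by positivity) ?_ _)
        have h7 : ((d + k : ℕ) : ℝ) / d ≤ 2 * ((k : ℝ) / d) := by
          rw [div_le_iff₀ hd0]
          have h8 : 2 * ((k : ℝ) / d) * d = 2 * k := by field_simp
          rw [h8]
          push_cast
          have : (d : ℝ) ≤ k := by exact_mod_cast hdk.le
          linarith
        calc 2.72 * (((d + k : ℕ) : ℝ) / d) ≤ 2.72 * (2 * ((k : ℝ) / d)) :=
              mul_le_mul_of_nonneg_left h7 (by norm_num)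
          _ = 5.44 * ((k : ℝ) / d) := by ring
      have h5 : 2 ^ (d - 2) ≤ a ^ 2 := by
        have h6 : (d - 2).choose ((d - 2) / 2) ≤ a := h2 _ (by omega)
        have h7 : 2 ^ (d - 2) ≤ (d - 2 + 1) * (d - 2).choose ((d - 2) / 2) := by
          rw [← Nat.sum_range_choose]
          calc ∑ m ∈ Finset.range (d - 2 + 1), (d - 2).choose m
              ≤ ∑ _m ∈ Finset.range (d - 2 + 1), (d - 2).choose ((d - 2) / 2) :=
                Finset.sum_le_sum fun m _ => Nat.choose_le_middle _ _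
            _ = _ := by rw [Finset.sum_const, Finset.card_range, smul_eq_mul]
        calc 2 ^ (d - 2) ≤ (d - 2 + 1) * (d - 2).choose ((d - 2) / 2) := h7
          _ ≤ a * a := Nat.mul_le_mul (by omega) h6
          _ = a ^ 2 := by ring
      have h6 : ((11 : ℝ)) ^ d ≤ (a : ℝ) ^ 12 := by exact_mod_cast eleven d a hd h1 h5
      have hgoal : ((((d + k).choose k : ℕ)) : ℝ) ≤ (a : ℝ) ^ 18 := by
        rcases le_or_gt ((k : ℝ) / d) 2 with hy | hy
        · calc ((((d + k).choose k : ℕ)) : ℝ) ≤ (5.44 * ((k : ℝ) / d)) ^ d := h4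
            _ ≤ 11 ^ d := pow_le_pow_left₀ (by positivity) (by linarith) _
            _ ≤ (a : ℝ) ^ 12 := h6
            _ ≤ (a : ℝ) ^ 18 := pow_le_pow_right₀ ha1' (by norm_num)
        · -- the grid
          set q := (k - 1) / (2 * (d - 2)) with hq
          have hpos : 0 < 2 * (d - 2) := by omega
          have hn : 2 * ((d - 2) * (Nat.sqrt q + 1 - 1) ^ 2) + 1 ≤ k := by
            have h7 : Nat.sqrt q ^ 2 ≤ q := by rw [pow_two]; exact Nat.sqrt_le q
            have h8 : 2 * (d - 2) * q ≤ k - 1 := Nat.mul_div_le _ _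
            have h9 : 2 * (d - 2) * Nat.sqrt q ^ 2 ≤ 2 * (d - 2) * q :=
              Nat.mul_le_mul_left _ h7
            have e1 : Nat.sqrt q + 1 - 1 = Nat.sqrt q := by omega
            rw [e1]
            have e2 : 2 * ((d - 2) * Nat.sqrt q ^ 2) = 2 * (d - 2) * Nat.sqrt q ^ 2 := by ring
            rw [e2]
            omega
          have hna := h3 _ hn
          have hn2 : (k : ℝ) / d / 2 ≤ ((Nat.sqrt q + 1 : ℕ) : ℝ) ^ 2 := by
            have h7 : q < (Nat.sqrt q + 1) * (Nat.sqrt q + 1) := Nat.lt_succ_sqrt q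
            have h8 : k - 1 < 2 * (d - 2) * (q + 1) := Nat.lt_mul_div_succ _ hpos
            have h9 : k ≤ 2 * (d - 2) * ((Nat.sqrt q + 1) * (Nat.sqrt q + 1)) := by
              calc k ≤ 2 * (d - 2) * (q + 1) := by omega
                _ ≤ _ := Nat.mul_le_mul_left _ h7
            have h10 : k ≤ 2 * d * ((Nat.sqrt q + 1) * (Nat.sqrt q + 1)) :=
              h9.trans (Nat.mul_le_mul_right _ (by omega))
            have h11 : (k : ℝ) ≤ 2 * d * (((Nat.sqrt q + 1 : ℕ) : ℝ) ^ 2) := by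
              have : ((k : ℕ) : ℝ) ≤ ((2 * d * ((Nat.sqrt q + 1) * (Nat.sqrt q + 1)) : ℕ) : ℝ) :=
                by exact_mod_cast h10
              refine this.trans (le_of_eq ?_)
              push_cast
              ring
            rw [div_div, div_le_iff₀ (by positivity)]
            linarith
          have h7 : ((k : ℝ) / d / 2) ^ (d - 2) ≤ (a : ℝ) ^ 2 := by
            calc ((k : ℝ) / d / 2) ^ (d - 2) ≤ (((Nat.sqrt q + 1 : ℕ) : ℝ) ^ 2) ^ (d - 2) :=
                  pow_le_pow_left₀ (by positivity) hn2 _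
              _ = (((Nat.sqrt q + 1 : ℕ) : ℝ) ^ (d - 2)) ^ 2 := by
                  rw [← pow_mul, ← pow_mul, mul_comm]
              _ ≤ (a : ℝ) ^ 2 := by
                  apply pow_le_pow_left₀ (by positivity)
                  exact_mod_cast hna
          have h8 : ((k : ℝ) / d / 2) ^ d ≤ (a : ℝ) ^ 6 := by
            have hy1 : 1 ≤ (k : ℝ) / d / 2 := by linarith
            calc ((k : ℝ) / d / 2) ^ d ≤ ((k : ℝ) / d / 2) ^ ((d - 2) * 3) :=
                  pow_le_pow_right₀ hy1 (by omega)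
              _ = (((k : ℝ) / d / 2) ^ (d - 2)) ^ 3 := by rw [pow_mul]
              _ ≤ ((a : ℝ) ^ 2) ^ 3 := pow_le_pow_left₀ (by positivity) h7 _
              _ = (a : ℝ) ^ 6 := by ring
          calc ((((d + k).choose k : ℕ)) : ℝ) ≤ (5.44 * ((k : ℝ) / d)) ^ d := h4
            _ = (10.88 * ((k : ℝ) / d / 2)) ^ d := by congr 1; ring
            _ ≤ (11 * ((k : ℝ) / d / 2)) ^ d := by
                apply pow_le_pow_left₀ (by positivity)
                have : 0 ≤ (k : ℝ) / d / 2 := by positivity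
                nlinarith
            _ = 11 ^ d * ((k : ℝ) / d / 2) ^ d := by rw [mul_pow]
            _ ≤ (a : ℝ) ^ 12 * (a : ℝ) ^ 6 :=
                mul_le_mul h6 h8 (by positivity) (by positivity)
            _ = (a : ℝ) ^ 18 := by ring
      exact_mod_cast hgoal
    · -- `14 ≤ k ≤ d`
      have h4 : ((((d + k).choose k : ℕ)) : ℝ) ≤ (5.44 * ((d : ℝ) / k)) ^ k := by
        refine (choose_le_exp (d + k) k hk).trans (pow_le_pow_left₀ (by positivity) ?_ _)
        have h7 : ((d + k : ℕ) : ℝ) / k ≤ 2 * ((d : ℝ) / k) := by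
          rw [div_le_iff₀ hk0]
          have h8 : 2 * ((d : ℝ) / k) * k = 2 * d := by field_simp
          rw [h8]
          push_cast
          have : (k : ℝ) ≤ d := by exact_mod_cast hdk
          linarith
        calc 2.72 * (((d + k : ℕ) : ℝ) / k) ≤ 2.72 * (2 * ((d : ℝ) / k)) :=
              mul_le_mul_of_nonneg_left h7 (by norm_num)
          _ = 5.44 * ((d : ℝ) / k) := by ring
      set j := k / 4 with hj
      have hj3 : 3 ≤ j := by omega
      have hj0 : (0 : ℝ) < j := by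
        have : 0 < j := by omega
        exact_mod_cast this
      have h5 : (d - 2).choose j ≤ a := h2 j (by omega)
      have h6 := pow_le_choose j (d - 2) (by omega)
      have h7 : (((d - 2 : ℕ) : ℝ) / j) ^ j ≤ a := by
        rw [div_pow, div_le_iff₀ (by positivity)]
        calc ((d - 2 : ℕ) : ℝ) ^ j ≤ (((d - 2).choose j : ℕ) : ℝ) * (j : ℝ) ^ j := by
              exact_mod_cast h6
          _ ≤ a * (j : ℝ) ^ j :=
              mul_le_mul_of_nonneg_right (by exact_mod_cast h5) (by positivity)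
      have hx : 1 ≤ (d : ℝ) / k := by
        rw [le_div_iff₀ hk0, one_mul]
        exact_mod_cast hdk
      have h8 : 3 * ((d : ℝ) / k) ≤ ((d - 2 : ℕ) : ℝ) / j := by
        rw [le_div_iff₀ hj0, mul_assoc, div_mul_eq_mul_div]
        have h9 : (4 : ℝ) * j ≤ k := by
          have : 4 * j ≤ k := by omega
          exact_mod_cast this
        have h10 : (3 : ℝ) * d ≤ 4 * ((d - 2 : ℕ) : ℝ) := by
          have : 3 * d ≤ 4 * (d - 2) := by omega
          exact_mod_cast this
        have h11 : (d : ℝ) * j / k ≤ d / 4 := by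
          rw [div_le_div_iff₀ hk0 (by norm_num)]
          nlinarith
        linarith
      have h9 : (3 * ((d : ℝ) / k)) ^ j ≤ a :=
        (pow_le_pow_left₀ (by positivity) h8 _).trans h7
      have hgoal : ((((d + k).choose k : ℕ)) : ℝ) ≤ (a : ℝ) ^ 18 := by
        calc ((((d + k).choose k : ℕ)) : ℝ) ≤ (5.44 * ((d : ℝ) / k)) ^ k := h4
          _ ≤ ((3 * ((d : ℝ) / k)) ^ 3) ^ k := by
              apply pow_le_pow_left₀ (by positivity)
              have h10 : 1 ≤ ((d : ℝ) / k) ^ 2 := one_le_pow₀ hx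
              have e1 : (3 * ((d : ℝ) / k)) ^ 3 = 27 * (((d : ℝ) / k) ^ 2 * ((d : ℝ) / k)) := by
                ring
              rw [e1]
              nlinarith
          _ = (3 * ((d : ℝ) / k)) ^ (3 * k) := by rw [← pow_mul]
          _ ≤ (3 * ((d : ℝ) / k)) ^ (j * 18) :=
              pow_le_pow_right₀ (by linarith) (by omega)
          _ = ((3 * ((d : ℝ) / k)) ^ j) ^ 18 := by rw [pow_mul]
          _ ≤ (a : ℝ) ^ 18 := pow_le_pow_left₀ (by positivity) h9 _
      exact_mod_cast hgoal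

theorem two_pow_le_choose (d k : ℕ) (hk : d ≤ k) : 2 ^ d ≤ (d + k).choose k := by
  have h1 : 2 ^ d ≤ (2 * d).choose d := by
    induction d with
    | zero => simp
    | succ n ih =>
      have ih' := ih (by omega)
      have h := Nat.succ_mul_centralBinom_succ n
      rw [Nat.centralBinom_eq_two_mul_choose, Nat.centralBinom_eq_two_mul_choose] at h
      have h2 : (n + 1) * 2 ^ (n + 1) ≤ (n + 1) * (2 * (n + 1)).choose (n + 1) := by
        rw [h]
        calc (n + 1) * 2 ^ (n + 1) = 2 * (n + 1) * 2 ^ n := by ring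
          _ ≤ 2 * (2 * n + 1) * (2 * n).choose n := Nat.mul_le_mul (by omega) ih'
      exact Nat.le_of_mul_le_mul_left h2 (by omega)
  calc 2 ^ d ≤ (2 * d).choose d := h1
    _ ≤ (d + k).choose d := Nat.choose_le_choose d (by omega)
    _ = (d + k).choose k := Nat.choose_symm_add

theorem two_pow_le_choose' (d k : ℕ) (hk : k ≤ d) : 2 ^ k ≤ (d + k).choose k := by
  have h := two_pow_le_choose k d hk
  rw [Nat.add_comm] at h
  exact h.trans (le_of_eq Nat.choose_symm_add)

theorem min_pow (d k a : ℕ) (h : a ≤ 5 ^ d * (d + k).choose k) :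
    a ^ min d k ≤ (d + k).choose k ^ (4 * d) := by
  set c := (d + k).choose k with hc
  have hc1 : 1 ≤ c := Nat.choose_pos (by omega)
  have h2 : 2 ^ min d k ≤ c := by
    rcases le_total d k with hdk | hdk
    · rw [min_eq_left hdk]
      exact two_pow_le_choose d k hdk
    · rw [min_eq_right hdk]
      exact two_pow_le_choose' d k hdk
  have hm : min d k ≤ d := min_le_left d k
  calc a ^ min d k ≤ (5 ^ d * c) ^ min d k := Nat.pow_le_pow_left h _
    _ = (5 ^ min d k) ^ d * c ^ min d k := by rw [mul_pow, ← pow_mul, ← pow_mul, mul_comm d]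
    _ ≤ (8 ^ min d k) ^ d * c ^ min d k :=
        Nat.mul_le_mul_right _ (Nat.pow_le_pow_left (Nat.pow_le_pow_left (by norm_num) _) _)
    _ = ((2 ^ min d k) ^ 3) ^ d * c ^ min d k := by
        rw [← pow_mul 2, mul_comm _ 3, pow_mul 2]
        norm_num
    _ ≤ (c ^ 3) ^ d * c ^ min d k :=
        Nat.mul_le_mul_right _ (Nat.pow_le_pow_left (Nat.pow_le_pow_left h2 _) _)
    _ ≤ (c ^ 3) ^ d * c ^ d := Nat.mul_le_mul_left _ (Nat.pow_le_pow_right hc1 hm)
    _ = c ^ (4 * d) := by rw [← pow_mul, ← pow_add]; congr 1; ring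

end Pool.Agent.LargeDistU
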