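import Pool.Agent.LargeDist.Basic

set_option autoImplicit false

/-!
# Sets with few distances: the polynomial bound

A set in `ℝ^m` with at most `k` distinct distances has at most `(m+1+k).choose k` points
(Larman, Rogers, Seidel; Bannai, Bannai, Stanton).
-/

namespace Pool.Agent.LargeDistU

open Finset Pool.Agent.LargeDist MvPolynomial

/-- the coordinates `(1, |b|^2, b)` of a point -/
noncomputable def yy {m : ℕ} (b : EuclideanSpace ℝ (Fin m)) : Option (Option (Fin m)) → ℝ
  | none => 1
  | some none => ‖b‖ ^ 2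
  | some (some i) => b i

/-- the linear form whose value at `yy b` is `|b - a|^2 - δ^2` -/
noncomputable def LL {m : ℕ} (a : EuclideanSpace ℝ (Fin m)) (δ : ℝ) :
    MvPolynomial (Option (Option (Fin m))) ℝ :=
  X (some none) - ∑ i, C (2 * a i) * X (some (some i)) + C (‖a‖ ^ 2 - δ ^ 2) * X none

theorem CX_hom {σ : Type*} (c : ℝ) (i : σ) :
    (C c * X i : MvPolynomial σ ℝ).IsHomogeneous 1 := by
  have h := (isHomogeneous_C σ c).mul (isHomogeneous_X ℝ i)
  rwa [zero_add] at h

theorem LL_hom {m : ℕ} (a : EuclideanSpace ℝ (Fin m)) (δ : ℝ) : (LL a δ).IsHomogeneous 1 := by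
  unfold LL
  exact IsHomogeneous.add (IsHomogeneous.sub (isHomogeneous_X _ _)
    (IsHomogeneous.sum _ _ _ (fun i _ => CX_hom _ _))) (CX_hom _ _)

theorem eval_LL {m : ℕ} (a b : EuclideanSpace ℝ (Fin m)) (δ : ℝ) :
    eval (yy b) (LL a δ) = ‖b - a‖ ^ 2 - δ ^ 2 := by
  unfold LL
  simp only [map_add, map_sub, map_sum, map_mul, eval_X, eval_C, yy]
  rw [norm_sub_sq_real]
  have : inner ℝ b a = ∑ i, a i * b i := by
    simp [PiLp.inner_apply]
  rw [this, Finset.mul_sum]
  have h2 : ∑ i, 2 * a i * b i = ∑ i, 2 * (a i * b i) := by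
    apply Finset.sum_congr rfl; intro i _; ring
  rw [h2]; ring

theorem card_le_choose {m k : ℕ} (A : Finset (EuclideanSpace ℝ (Fin m)))
    (hA : (dists A).card ≤ k) : A.card ≤ (m + 1 + k).choose k := by
  classical
  set ι := Option (Option (Fin m)) with hι
  let P : EuclideanSpace ℝ (Fin m) → MvPolynomial ι ℝ := fun a =>
    (X none) ^ (k - (dists A).card) * ∏ δ ∈ dists A, LL a δ
  have hP : ∀ a, (P a).IsHomogeneous k := by
    intro a
    have h1 : ((X none : MvPolynomial ι ℝ) ^ (k - (dists A).card)).IsHomogeneous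
        (k - (dists A).card) := by
      simpa using (isHomogeneous_X ℝ (none : ι)).pow (k - (dists A).card)
    have h2 : (∏ δ ∈ dists A, LL a δ).IsHomogeneous (dists A).card := by
      have := IsHomogeneous.prod (dists A) (fun δ => LL a δ) (fun _ => 1) (fun δ _ => LL_hom a δ)
      simpa using this
    have h3 := h1.mul h2
    rwa [Nat.sub_add_cancel hA] at h3
  have heval : ∀ a b, eval (yy b) (P a) = ∏ δ ∈ dists A, (‖b - a‖ ^ 2 - δ ^ 2) := by
    intro a b
    simp only [P, map_mul, map_pow, eval_X, map_prod, eval_LL]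
    simp [yy]
  have hoff : ∀ a ∈ A, ∀ b ∈ A, a ≠ b → eval (yy b) (P a) = 0 := by
    intro a ha b hb hab
    rw [heval]
    apply Finset.prod_eq_zero (i := dist b a)
    · exact mem_dists.2 ⟨b, hb, a, ha, hab.symm, rfl⟩
    · rw [dist_eq_norm]; ring
  have hdiag : ∀ a ∈ A, eval (yy a) (P a) ≠ 0 := by
    intro a ha
    rw [heval]
    apply Finset.prod_ne_zero_iff.2
    intro δ hδ
    have := dists_pos hδ
    simp
    exact this.ne'
  let I := (Finset.univ : Finset ι).finsuppAntidiag k
  let Cm : Matrix A I ℝ := fun a α => coeff α.1 (P a.1)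
  let Mm : Matrix I A ℝ := fun α b => ∏ i, (yy b.1 i) ^ (α.1 i)
  have hmul : Cm * Mm = Matrix.diagonal (fun a : A => eval (yy a.1) (P a.1)) := by
    ext a b
    have h1 : (Cm * Mm) a b = eval (yy b.1) (P a.1) := by
      rw [Matrix.mul_apply, eval_eq']
      simp only [Cm, Mm]
      rw [Finset.sum_coe_sort I (fun α => coeff α (P a.1) * ∏ i, (yy b.1 i) ^ (α i))]
      symm
      apply Finset.sum_subset
      · intro α hα
        rw [Finset.mem_finsuppAntidiag]
        refine ⟨?_, Finset.subset_univ _⟩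
        have := hP a.1 (mem_support_iff.1 hα)
        rw [Finsupp.weight_apply, Finsupp.sum_fintype _ _ (by simp)] at this
        simpa using this
      · intro α _ hα
        rw [notMem_support_iff.1 hα, zero_mul]
    rw [h1]
    by_cases hab : a = b
    · subst hab; rw [Matrix.diagonal_apply_eq]
    · rw [Matrix.diagonal_apply_ne _ hab]
      exact hoff a.1 a.2 b.1 b.2 (fun h => hab (Subtype.ext h))
  have hrank : (Cm * Mm).rank = A.card := by
    rw [hmul, Matrix.rank_diagonal]
    have : ∀ a : A, eval (yy a.1) (P a.1) ≠ 0 := fun a => hdiag a.1 a.2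
    simp [this]
  have hle : (Cm * Mm).rank ≤ I.card := by
    refine (Matrix.rank_mul_le_left _ _).trans ?_
    refine (Matrix.rank_le_card_width _).trans ?_
    simp
  rw [hrank] at hle
  refine hle.trans (le_of_eq ?_)
  simp only [I]
  rw [Finset.card_finsuppAntidiag_nat_eq_choose]
  simp only [Finset.card_univ, hι, Fintype.card_option, Fintype.card_fin]
  congr 1
  omega

theorem D_le_choose (m k : ℕ) : D m k ≤ (((m + 1 + k).choose k : ℕ) : ℕ∞) := by
  unfold D
  apply iSup_le
  rintro ⟨A, hA⟩
  exact_mod_cast card_le_choose A hA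

end Pool.Agent.LargeDistU
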