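import Pool.Agent.LargeDist.Grid
import Pool.Agent.LargeDist.Upper
import Pool.Agent.LargeDistU.Poly
import Pool.Agent.LargeDistU.Low
import Pool.Agent.LargeDistU.Num

set_option autoImplicit false

/-!
# The logarithm of `f(d,k)` in terms of the binomial coefficient `(d + k).choose k`
-/

namespace Pool.Agent.LargeDistU

open Pool.Agent.LargeDist

/-- upper bound -/
theorem f_le_choose (d k : ℕ) (hd : 2 ≤ d) (hk : 1 ≤ k) :
    f d k ≤ ((5 ^ d * (d + k).choose k : ℕ) : ℕ∞) := by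
  have h1 : F d k ≤ ((5 ^ (d - 2) * (d - 2 + 1 + k).choose k : ℕ) : ℕ∞) := by
    push_cast
    exact (F_le d k).trans (mul_le_mul_right ((M_le_D d k).trans (D_le_choose (d - 2) k)) _)
  refine (f_le_F d k hd hk).trans ((add_le_add_left h1 _).trans ?_)
  have h2 : 5 ^ (d - 2) * (d - 2 + 1 + k).choose k + 5 ^ d ≤ 5 ^ d * (d + k).choose k := by
    obtain ⟨e, rfl⟩ : ∃ e, d = e + 2 := ⟨d - 2, by omega⟩
    obtain ⟨j, rfl⟩ : ∃ j, k = j + 1 := ⟨k - 1, by omega⟩
    have e1 : e + 2 - 2 = e := by omega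
    have e2 : e + 2 + (j + 1) = (e + 1 + (j + 1)) + 1 := by ring
    rw [e1, e2, Nat.choose_succ_succ]
    have h3 : 1 ≤ (e + 1 + (j + 1)).choose j := Nat.choose_pos (by omega)
    have h4 : 1 ≤ (e + 1 + (j + 1)).choose (j + 1) := Nat.choose_pos (by omega)
    have e3 : 5 ^ (e + 2) = 25 * 5 ^ e := by ring
    rw [e3]
    have e4 : 5 ^ e * (e + 1 + (j + 1)).choose (j + 1) + 25 * 5 ^ e =
        5 ^ e * ((e + 1 + (j + 1)).choose (j + 1) + 25) := by ring
    have e5 : 25 * 5 ^ e * ((e + 1 + (j + 1)).choose j + (e + 1 + (j + 1)).choose (j + 1)) =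
        5 ^ e * (25 * ((e + 1 + (j + 1)).choose j + (e + 1 + (j + 1)).choose (j + 1))) := by ring
    rw [e4, e5]
    exact Nat.mul_le_mul_left _ (by omega)
  exact_mod_cast h2

/-- lower bound -/
theorem choose_le_f (d k : ℕ) (hd : 3 ≤ d) (hk : 1 ≤ k) :
    (((d + k).choose k : ℕ) : ℕ∞) ≤ f d k ^ 18 := by
  have hne : f d k ≠ ⊤ := ne_top_of_le_ne_top (ENat.coe_ne_top _) (f_le_choose d k (by omega) hk)
  obtain ⟨a, ha⟩ := ENat.ne_top_iff_exists.1 hne
  have h1 : d ≤ a := by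
    have h := (le_f_one (d := d) (by omega)).trans (f_one_le k hk)
    rw [← ha] at h
    exact_mod_cast h
  have hD : ∀ j, 2 * j + 1 ≤ k → D (d - 2) j ≤ f d k := by
    intro j hj
    have hm : D (d - 2) j ≤ D (d - 2) ((k - 1) / 2) := by
      unfold D
      apply iSup_le
      rintro ⟨A, hA⟩
      exact le_iSup (fun A : {A : Finset (EuclideanSpace ℝ (Fin (d - 2))) //
        (dists A).card ≤ (k - 1) / 2} => (A.1.card : ℕ∞)) ⟨A, hA.trans (by omega)⟩
    exact hm.trans ((D_le_M d k (by omega) hk).trans (M_le_f d k hk))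
  have h2 : ∀ j, 2 * j + 1 ≤ k → (d - 2).choose j ≤ a := by
    intro j hj
    have h := (choose_le_D (d - 2) j j (le_refl j)).trans (hD j hj)
    rw [← ha] at h
    exact_mod_cast h
  have h3 : ∀ n, 2 * ((d - 2) * (n - 1) ^ 2) + 1 ≤ k → n ^ (d - 2) ≤ a := by
    intro n hn
    have h := (grid_le_D (d - 2) ((d - 2) * (n - 1) ^ 2) n (le_refl _)).trans (hD _ hn)
    rw [← ha] at h
    exact_mod_cast h
  rw [← ha]
  exact_mod_cast numeric d k a hd hk h1 h2 h3

/-- the upper bound in terms of the binomial coefficient alone -/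
theorem f_pow_min (d k : ℕ) (hd : 2 ≤ d) (hk : 1 ≤ k) :
    f d k ^ min d k ≤ (((d + k).choose k ^ (4 * d) : ℕ) : ℕ∞) := by
  have h := f_le_choose d k hd hk
  have hne : f d k ≠ ⊤ := ne_top_of_le_ne_top (ENat.coe_ne_top _) h
  obtain ⟨a, ha⟩ := ENat.ne_top_iff_exists.1 hne
  rw [← ha] at h ⊢
  have h' : a ≤ 5 ^ d * (d + k).choose k := by exact_mod_cast h
  exact_mod_cast min_pow d k a h'

end Pool.Agent.LargeDistU
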